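import Mathlib
import Pool.Agent.H204R3.GP.Defs
import Pool.Agent.Y41.RM.Concl

/-!
# Semisimple representations are semisimple over subgroups of finite index
-/

set_option autoImplicit false
set_option linter.unusedSectionVars false

namespace Pool.Agent.Helper49K

open Module Pool.Agent.H204R3.GP

section

variable {k V Γ : Type} [Field k] [AddCommGroup V] [Module k V] [Group Γ]
  (ρ : Representation k Γ V)

/-- The subspace is stable under the subgroup. -/
def St (N : Subgroup Γ) (U : Submodule k V) : Prop := ∀ s ∈ N, ∀ u ∈ U, ρ s u ∈ U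

/-- The subspace is minimal among the stable subspaces. -/
def Mi (N : Subgroup Γ) (W : Submodule k V) : Prop :=
  W ≠ ⊥ ∧ St ρ N W ∧ ∀ W' ≤ W, St ρ N W' → W' = ⊥ ∨ W' = W

/-- The representation is semisimple: stable subspaces have stable complements. -/
def IsSemisimpleRep : Prop := ∀ U : Submodule k V, (∀ s : Γ, ∀ u ∈ U, ρ s u ∈ U) →
  ∃ U' : Submodule k V, (∀ s : Γ, ∀ u ∈ U', ρ s u ∈ U') ∧ IsCompl U U'

variable {ρ}

theorem inv_apply (γ : Γ) (x : V) : ρ γ⁻¹ (ρ γ x) = x := by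
  rw [← Module.End.mul_apply, ← map_mul, inv_mul_cancel, map_one]
  rfl

theorem apply_inv (γ : Γ) (x : V) : ρ γ (ρ γ⁻¹ x) = x := by
  rw [← Module.End.mul_apply, ← map_mul, mul_inv_cancel, map_one]
  rfl

theorem st_map {N : Subgroup Γ} [N.Normal] {W : Submodule k V} (h : St ρ N W) (γ : Γ) :
    St ρ N (W.map (ρ γ)) := by
  rintro s hs _ ⟨w, hw, rfl⟩
  refine ⟨ρ (γ⁻¹ * s * γ) w, h _ ?_ w hw, ?_⟩
  · have h1 := Subgroup.Normal.conj_mem inferInstance s hs γ⁻¹
    rwa [inv_inv] at h1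
  · rw [← Module.End.mul_apply, ← Module.End.mul_apply, ← map_mul, ← map_mul]
    congr 2
    group

theorem map_map_inv (γ : Γ) (W : Submodule k V) : (W.map (ρ γ⁻¹)).map (ρ γ) = W := by
  ext x
  constructor
  · rintro ⟨_, ⟨w, hw, rfl⟩, rfl⟩
    rw [apply_inv]
    exact hw
  · intro hx
    exact ⟨ρ γ⁻¹ x, ⟨x, hx, rfl⟩, apply_inv γ x⟩

theorem mi_map {N : Subgroup Γ} [N.Normal] {W : Submodule k V} (h : Mi ρ N W) (γ : Γ) :
    Mi ρ N (W.map (ρ γ)) := by
  refine ⟨fun h0 => h.1 ?_, st_map h.2.1 γ, fun W' hle hS => ?_⟩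
  · rw [Submodule.eq_bot_iff] at h0 ⊢
    intro x hx
    have h1 := h0 (ρ γ x) ⟨x, hx, rfl⟩
    rw [← inv_apply (ρ := ρ) γ x, h1, map_zero]
  · have h1 : W'.map (ρ γ⁻¹) ≤ W := by
      rintro _ ⟨x, hx, rfl⟩
      obtain ⟨w, hw, rfl⟩ := hle hx
      change ρ γ⁻¹ (ρ γ w) ∈ W
      rw [inv_apply]
      exact hw
    rcases h.2.2 _ h1 (st_map hS γ⁻¹) with h2 | h2
    · left
      rw [← map_map_inv (ρ := ρ) γ W', h2, Submodule.map_bot]
    · right
      rw [← map_map_inv (ρ := ρ) γ W', h2]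

variable [FiniteDimensional k V]

theorem exists_mi {N : Subgroup Γ} {U : Submodule k V} (hU : St ρ N U) (h0 : U ≠ ⊥) :
    ∃ W ≤ U, Mi ρ N W := by
  obtain ⟨W, hW, hmin⟩ := (wellFounded_lt (α := Submodule k V)).has_min
    {W : Submodule k V | W ≠ ⊥ ∧ St ρ N W ∧ W ≤ U} ⟨U, h0, hU, le_rfl⟩
  refine ⟨W, hW.2.2, hW.1, hW.2.1, fun W' hle hS => ?_⟩
  by_cases h1 : W' = ⊥
  · exact Or.inl h1
  · right
    by_contra h2
    exact hmin W' ⟨h1, hS, hle.trans hW.2.2⟩ (lt_of_le_of_ne hle h2)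

theorem socle (hss : IsSemisimpleRep ρ) (N : Subgroup Γ) [N.Normal] :
    sSup {W : Submodule k V | Mi ρ N W} = ⊤ := by
  have hst : ∀ γ : Γ, ∀ u ∈ sSup {W : Submodule k V | Mi ρ N W},
      ρ γ u ∈ sSup {W : Submodule k V | Mi ρ N W} := by
    intro γ u hu
    have h1 : sSup {W : Submodule k V | Mi ρ N W} ≤
        (sSup {W : Submodule k V | Mi ρ N W}).comap (ρ γ) := by
      refine sSup_le fun W hW => Submodule.map_le_iff_le_comap.1 (le_sSup ?_)
      exact mi_map hW γ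
    exact h1 hu
  obtain ⟨U', hU', hc⟩ := hss _ hst
  by_contra hne
  have h0 : U' ≠ ⊥ := by
    intro h0
    apply hne
    have h1 := hc.sup_eq_top
    rwa [h0, sup_bot_eq] at h1
  obtain ⟨W, hWU, hW⟩ := exists_mi (ρ := ρ) (N := N) (U := U') (fun s _ u hu => hU' s u hu) h0
  have h1 : W ≤ sSup {W : Submodule k V | Mi ρ N W} := le_sSup hW
  exact hW.1 (le_bot_iff.1 (hc.inf_eq_bot ▸ le_inf h1 hWU))

theorem compl_normal (hss : IsSemisimpleRep ρ) (N : Subgroup Γ) [N.Normal] (U : Submodule k V)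
    (hU : St ρ N U) : ∃ U', St ρ N U' ∧ IsCompl U U' := by
  obtain ⟨U', hU', hmax⟩ := (wellFounded_gt (α := Submodule k V)).has_min
    {U' : Submodule k V | St ρ N U' ∧ U ⊓ U' = ⊥} ⟨⊥, fun s _ u hu => by
      rw [Submodule.mem_bot] at hu ⊢
      rw [hu, map_zero], inf_bot_eq U⟩
  refine ⟨U', hU'.1, disjoint_iff.2 hU'.2, codisjoint_iff.2 ?_⟩
  by_contra hne
  obtain ⟨W, hW, hWn⟩ : ∃ W, Mi ρ N W ∧ ¬ W ≤ U ⊔ U' := by
    by_contra hc
    push Not at hc
    apply hne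
    rw [← top_le_iff, ← socle hss N]
    exact sSup_le hc
  have hst : St ρ N (U ⊔ U') := by
    intro s hs x hx
    obtain ⟨a, ha, b, hb, rfl⟩ := Submodule.mem_sup.1 hx
    rw [map_add]
    exact Submodule.add_mem_sup (hU s hs a ha) (hU'.1 s hs b hb)
  have h1 : W ⊓ (U ⊔ U') = ⊥ := by
    rcases hW.2.2 (W ⊓ (U ⊔ U')) inf_le_left (fun s hs x hx =>
      ⟨hW.2.1 s hs x hx.1, hst s hs x hx.2⟩) with h | h
    · exact h
    · exact absurd (inf_eq_left.1 h) hWn
  have h2 : U ⊓ (U' ⊔ W) = ⊥ := by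
    rw [Submodule.eq_bot_iff]
    rintro x ⟨hx, hx'⟩
    obtain ⟨a, ha, b, hb, hab⟩ := Submodule.mem_sup.1 hx'
    have h3 : b ∈ W ⊓ (U ⊔ U') := by
      refine ⟨hb, ?_⟩
      have h4 : b = x + -a := by
        rw [← hab]
        abel
      rw [h4]
      exact Submodule.add_mem_sup hx (U'.neg_mem ha)
    rw [h1, Submodule.mem_bot] at h3
    have h5 : x ∈ U ⊓ U' := ⟨hx, by
      rw [← hab, h3, add_zero]
      exact ha⟩
    rw [hU'.2, Submodule.mem_bot] at h5
    exact h5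
  refine hmax (U' ⊔ W) ⟨fun s hs x hx => ?_, h2⟩ (lt_of_le_of_ne le_sup_left fun h3 => ?_)
  · obtain ⟨a, ha, b, hb, rfl⟩ := Submodule.mem_sup.1 hx
    rw [map_add]
    exact Submodule.add_mem_sup (hU'.1 s hs a ha) (hW.2.1 s hs b hb)
  · apply hWn
    have h4 : W ≤ U' := by
      rw [h3]
      exact le_sup_right
    exact h4.trans le_sup_right

variable [CharZero k]

/-- Semisimple representations are semisimple over subgroups of finite index. -/
theorem fis_of_semisimple (hss : IsSemisimpleRep ρ) : FiniteIndexSemisimple ρ := by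
  intro Δ hΔ U hU
  have hfin : Δ.normalCore.FiniteIndex := inferInstance
  have hUN : St ρ Δ.normalCore U := fun s hs => hU s (Subgroup.normalCore_le Δ hs)
  obtain ⟨U', hU', hc⟩ := compl_normal hss Δ.normalCore U hUN
  have hex : ∀ v : V, ∃ a ∈ U, ∃ b ∈ U', a + b = v := fun v =>
    Submodule.mem_sup.1 (by rw [hc.sup_eq_top]; trivial)
  let P : End k V := U.subtype ∘ₗ Submodule.projectionOnto U U' hc
  have hP : ∀ a ∈ U, ∀ b ∈ U', P (a + b) = a := by
    intro a ha b hb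
    change ((Submodule.projectionOnto U U' hc (a + b) : U) : V) = a
    rw [map_add, Submodule.projectionOnto_apply_of_mem_right hc hb, add_zero]
    exact congrArg Subtype.val (Submodule.projectionOnto_apply_left hc ⟨a, ha⟩)
  refine Pool.Agent.Y41.RM.exists_compl_of_commute ρ Δ Δ.normalCore hfin U hU P (fun v => ?_)
    (fun u hu => ?_) fun s hs => LinearMap.ext fun v => ?_
  · obtain ⟨a, ha, b, hb, rfl⟩ := hex v
    rw [hP a ha b hb]
    exact ha
  · have := hP u hu 0 (Submodule.zero_mem _)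
    rwa [add_zero] at this
  · obtain ⟨a, ha, b, hb, rfl⟩ := hex v
    rw [Module.End.mul_apply, Module.End.mul_apply, hP a ha b hb, map_add,
      hP _ (hUN s hs a ha) _ (hU' s hs b hb)]

end

end Pool.Agent.Helper49K
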