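import Pool.Agent.Helper49T.All

/-!
# Places of maximal rank over number fields
-/

set_option autoImplicit false
set_option linter.unusedSectionVars false
set_option linter.unusedVariables false

namespace Pool.Agent.Helper49K

open NumberField IsDedekindDomain Polynomial Module Pool.Agent.Y114.TF Pool.Agent.Y114.GF
  Pool.Agent.Y114.MU Pool.Agent.Y114.RM Pool.Agent.H204R3.GP Pool.Agent.R931.IR

variable {K : Type} [Field K] [NumberField K]

/-- The residue characteristic and the residue degree. -/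
theorem exists_residue (v : HeightOneSpectrum (𝓞 K)) : ∃ p f : ℕ, p.Prime ∧ Above v p ∧
    q v = p ^ f ∧ f ≤ finrank ℚ K := by
  have h0 : Ideal.absNorm v.asIdeal ≠ 0 := by
    rw [Ne, Ideal.absNorm_eq_zero_iff]
    exact v.ne_bot
  have h2 : ((Ideal.absNorm v.asIdeal : ℕ) : 𝓞 K) ∈ v.asIdeal := Ideal.absNorm_mem v.asIdeal
  have h3 : ∀ m : ℕ, m ≠ 0 → (m : 𝓞 K) ∈ v.asIdeal → ∃ p : ℕ, p.Prime ∧ (p : 𝓞 K) ∈ v.asIdeal := by
    intro m
    induction m using Nat.recOnMul with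
    | zero => intro h; exact absurd rfl h
    | one =>
      intro _ h
      rw [Nat.cast_one] at h
      exact absurd ((Ideal.eq_top_iff_one _).2 h) v.isPrime.ne_top
    | prime p hp => intro _ h; exact ⟨p, hp, h⟩
    | mul a b iha ihb =>
      intro hab h
      rw [Nat.cast_mul] at h
      rcases v.isPrime.mem_or_mem h with h | h
      · exact iha (left_ne_zero_of_mul hab) h
      · exact ihb (right_ne_zero_of_mul hab) h
  obtain ⟨p, hp, hpv⟩ := h3 _ h0 h2
  have h4 := Ideal.absNorm_dvd_absNorm_of_le ((Ideal.span_singleton_le_iff_mem _).2 hpv)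
  rw [Ideal.absNorm_span_natCast] at h4
  obtain ⟨f, hf, hfe⟩ := (Nat.dvd_prime_pow hp).1 h4
  rw [RingOfIntegers.rank] at hf
  exact ⟨p, f, hp, hpv, hfe, hf⟩

/-- The polynomials at good places. -/
theorem good_polyK {ι : Type} {n : ι → ℕ} {ℓ : ℕ} [Fact ℓ.Prime]
    {ρ : Reps Gal(AlgebraicClosure K/K) n ℓ} {i : ι} {w : ℤ} {v : HeightOneSpectrum (𝓞 K)} {P : ℚ[X]}
    (h : GoodReduction ρ i w v P) : P ≠ 0 ∧ P.natDegree = n i := by
  obtain ⟨Q, σ, hQ, hQv, hσ⟩ := Pool.Agent.W571.FM.frob_cm v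
  have h1 : (ρ i σ⁻¹).charpoly = P.map (algebraMap ℚ ℚ_[ℓ]) := (h.2 Q ⟨hQ.isPrime, hQv⟩ σ).2 hσ
  have h2 : (P.map (algebraMap ℚ ℚ_[ℓ])).Monic := h1 ▸ LinearMap.charpoly_monic _
  have h3 : (P.map (algebraMap ℚ ℚ_[ℓ])).natDegree = n i := by
    rw [← h1, LinearMap.charpoly_natDegree, Module.finrank_fin_fun]
  rw [natDegree_map] at h3
  refine ⟨?_, h3⟩
  rintro rfl
  rw [Polynomial.map_zero] at h2
  exact not_monic_zero h2

/-- One place with independent Frobenius eigenvalues. -/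
theorem exists_indepK {ι : Type} [Fintype ι] {n : ι → ℕ} {ℓ : ℕ} [Fact ℓ.Prime]
    (ρ : Reps Gal(AlgebraicClosure K/K) n ℓ) (hρ : Conts ρ) (w : ι → ℤ) (c : ℕ)
    (S : Set (HeightOneSpectrum (𝓞 K))) (hS : S.Finite)
    (P : HeightOneSpectrum (𝓞 K) → ι → ℚ[X])
    (hP : ∀ v ∉ S, ∀ i, GoodReduction ρ i (w i) v (P v i))
    (hI : ∀ v ∉ S, ∀ i, ∀ a : ℂ, aeval a (P v i) = 0 → IsIntegral ℤ ((q v : ℂ) ^ c * a))
    (σ : Gal(AlgebraicClosure K/K)) (r : ℕ) (hσ : IndependentEigenvalues ρ σ r) :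
    ∃ v, v ∉ S ∧ IndepRoots r (Set.range (P v)) := by
  classical
  obtain ⟨κ, z, hz, hind⟩ := hσ
  let w' : ℕ → Fin r → ℤ := fun f k => (f : ℤ) * w (κ k)
  obtain ⟨v, hv, Q, φ, hQ, hφ, -, y, hy, hyE⟩ := exists_place ρ hρ σ κ z hz hind
    ((Finset.range (finrank ℚ K + 1)).biUnion fun f =>
      exs (w' f) (bd (w' f) (f * c) (∑ i, n i)))
    (fun h0 => by
      obtain ⟨f, -, hf⟩ := Finset.mem_biUnion.1 h0
      exact zero_notMem_exs _ _ hf)
    (M := (2 * (∑ i, n i) ^ r).factorial) (Nat.factorial_pos _) Set.univ isOpen_univ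
    (Set.mem_univ _) S hS
  refine ⟨v, hv, ?_⟩
  obtain ⟨j⟩ := exists_emb ℓ
  obtain ⟨p, f, hp, hpv, hq, hf⟩ := exists_residue v
  have hroot : ∀ k, aeval (j (y k)) (P v (κ k)) = 0 := by
    intro k
    have h1 : (ρ (κ k) φ⁻¹).charpoly = (P v (κ k)).map (algebraMap ℚ ℚ_[ℓ]) :=
      ((hP v hv (κ k)).2 Q hQ φ).2 hφ
    have h2 : aeval (y k) (ρ (κ k) φ⁻¹).charpoly = 0 := hy k
    rw [h1, aeval_map_algebraMap] at h2
    have h3 := congrArg j.toRatAlgHom h2
    rw [map_zero, ← aeval_algHom_apply] at h3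
    exact h3
  refine ⟨fun k => j (y k), fun k => ⟨P v (κ k), ⟨κ k, rfl⟩, hroot k⟩, fun e he => ?_⟩
  by_contra hne
  obtain ⟨e', he', hrel⟩ := relation_complex (w' f) (f * c) (D := ∑ i, n i) hp
    (fun k => P v (κ k)) (fun k => j (y k))
    (fun k => ⟨(good_polyK (hP v hv (κ k))).1, by
      rw [(good_polyK (hP v hv (κ k))).2]
      exact Finset.single_le_sum (f := n) (fun _ _ => Nat.zero_le _) (Finset.mem_univ _)⟩)
    (fun k b hb => by
      have h1 := (hP v hv (κ k)).1 b (by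
        rw [mem_aroots]
        exact ⟨(good_polyK (hP v hv (κ k))).1, hb⟩)
      rw [hq] at h1
      rw [h1]
      change ((p ^ f : ℕ) : ℝ) ^ w (κ k) = (p : ℝ) ^ ((f : ℤ) * w (κ k))
      rw [Nat.cast_pow, zpow_mul, zpow_natCast])
    (fun k b hb => by
      have h1 := hI v hv (κ k) b hb
      rw [hq, Nat.cast_pow, ← pow_mul] at h1
      exact h1)
    hroot ⟨e, hne, he⟩
  apply hyE e' (Finset.mem_biUnion.2 ⟨f, Finset.mem_range.2 (Nat.lt_succ_of_le hf), he'⟩)
  apply j.injective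
  rw [map_one, map_pow, map_prod, ← hrel]
  congr 1
  exact Finset.prod_congr rfl fun k _ => by rw [map_zpow₀]

/-- There are finitely many places above a prime number. -/
theorem finite_aboveK {p : ℕ} (hp : p.Prime) :
    {v : HeightOneSpectrum (𝓞 K) | Above v p}.Finite := by
  have hp0 : Ideal.span {(p : 𝓞 K)} ≠ ⊥ := by
    rw [Ne, Ideal.span_singleton_eq_bot]
    exact Nat.cast_ne_zero.2 hp.ne_zero
  refine (Ideal.finite_factors hp0).subset fun v hv => ?_
  exact Ideal.dvd_span_singleton.2 hv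

end Pool.Agent.Helper49K
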