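import Pool.Agent.Helper49T.All

/-!
# The places of a number field of degree one
-/

set_option autoImplicit false
set_option linter.unusedSectionVars false
set_option linter.unusedVariables false

namespace Pool.Agent.Helper49K

open NumberField IsDedekindDomain Module Pool.Agent.Y114.GF

variable {K : Type} [Field K] [NumberField K]

theorem surj_one (hK : finrank ℚ K = 1) : Function.Surjective (algebraMap ℤ (𝓞 K)) := by
  intro x
  have h1 : (⊥ : Subalgebra ℚ K) = ⊤ := Subalgebra.bot_eq_top_of_finrank_eq_one hK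
  have h2 : (x : K) ∈ (⊥ : Subalgebra ℚ K) := by
    rw [h1]
    trivial
  obtain ⟨y, hy⟩ := Algebra.mem_bot.1 h2
  have h3 : IsIntegral ℤ y := by
    have h4 : IsIntegral ℤ (algebraMap ℚ K y) := by
      rw [hy]
      exact x.isIntegral_coe
    exact (isIntegral_algebraMap_iff (algebraMap ℚ K).injective).1 h4
  obtain ⟨m, hm⟩ := IsIntegrallyClosed.isIntegral_iff.1 h3
  refine ⟨m, RingOfIntegers.coe_injective ?_⟩
  change algebraMap (𝓞 K) K (algebraMap ℤ (𝓞 K) m) = (x : K)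
  rw [← hy, ← hm, eq_intCast, map_intCast, eq_intCast, map_intCast]

theorem maximal_one (hK : finrank ℚ K = 1) {p : ℕ} (hp : p.Prime) :
    (Ideal.span {(p : 𝓞 K)}).IsMaximal := by
  have : Fact p.Prime := ⟨hp⟩
  have h1 : (Ideal.span {(p : ℤ)}).IsMaximal := Int.ideal_span_isMaximal_of_prime p
  let e : ℤ ≃+* 𝓞 K := RingEquiv.ofBijective (algebraMap ℤ (𝓞 K))
    ⟨FaithfulSMul.algebraMap_injective ℤ (𝓞 K), surj_one hK⟩
  have h2 := Ideal.map_isMaximal_of_equiv e (p := Ideal.span {(p : ℤ)})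
  rw [Ideal.map_span, Set.image_singleton, map_natCast] at h2
  exact h2

theorem asIdeal_one (hK : finrank ℚ K = 1) {p : ℕ} (hp : p.Prime) {v : HeightOneSpectrum (𝓞 K)}
    (hv : Above v p) : v.asIdeal = Ideal.span {(p : 𝓞 K)} :=
  ((maximal_one hK hp).eq_of_le v.isPrime.ne_top ((Ideal.span_singleton_le_iff_mem _).2 hv)).symm

theorem above_one (hK : finrank ℚ K = 1) {p : ℕ} (hp : p.Prime) {v₀ : HeightOneSpectrum (𝓞 K)}
    (hv₀ : Above v₀ p) (v : HeightOneSpectrum (𝓞 K)) : Above v p ↔ v = v₀ := by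
  refine ⟨fun h => ?_, fun h => h ▸ hv₀⟩
  apply HeightOneSpectrum.ext
  rw [asIdeal_one hK hp h, asIdeal_one hK hp hv₀]

theorem unramified_one (hK : finrank ℚ K = 1) {p : ℕ} (hp : p.Prime) : UnramifiedIn K p := by
  intro v hv
  rw [asIdeal_one hK hp hv, Ideal.span_singleton_pow, Ideal.mem_span_singleton]
  rintro ⟨x, hx⟩
  have hp0 : (p : 𝓞 K) ≠ 0 := Nat.cast_ne_zero.2 hp.ne_zero
  have h1 : (p : 𝓞 K) * x = 1 := by
    apply mul_left_cancel₀ hp0
    rw [mul_one, ← mul_assoc, ← sq, ← hx]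
  have h2 : IsUnit (p : 𝓞 K) := IsUnit.of_mul_eq_one x h1
  exact (maximal_one hK hp).ne_top (Ideal.span_singleton_eq_top.2 h2)

end Pool.Agent.Helper49K
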