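import Pool.Agent.Helper49K.Rank
import Pool.Agent.Helper49K.Indep
import Pool.Agent.Helper49K.One

/-!
# The Tate conjecture at one prime number, over number fields
-/

set_option autoImplicit false
set_option linter.unusedSectionVars false
set_option linter.unusedVariables false

namespace Pool.Agent.Helper49K

open Pool.Agent.Y114.RM hiding comm mem_LT_of_semisimple
open Filter Topology Module Pool.Agent.Y114.TF Pool.Agent.R913.Adj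
  Pool.Agent.H204R3.GP Pool.Agent.R918.Ell Pool.Agent.Helper49N Pool.Agent
  Pool.Agent.R931.IR Pool.Agent.N203.RE Pool.Agent.Helper49C NumberField IsDedekindDomain
  Pool.Agent.Y114.GF Pool.Agent.Helper49P Pool.Agent.Helper49A Pool.Agent.Helper49T

section gal

variable {K : Type} [Field K] [NumberField K] {ι : Type} [Fintype ι] [DecidableEq ι] {n : ι → ℕ}
  {w : ι → ℤ} {S : Set (HeightOneSpectrum (𝓞 K))}
  {P : HeightOneSpectrum (𝓞 K) → ι → Polynomial ℚ}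
  {ρ : ∀ (ℓ : ℕ) [Fact ℓ.Prime], Reps Gal(AlgebraicClosure K/K) n ℓ}
  {𝔤 : Submodule ℚ (End ℚ (Betti n))}

/-- At the prime number `ℓ₀` there is an element of maximal rank. -/
theorem keyK (H : Pieces) (T : Pieces2)
    (h : Realizations (MonoidHom.id Gal(AlgebraicClosure K/K)) w S P ρ 𝔤)
    (ℓ₀ : ℕ) [hℓ₀ : Fact ℓ₀.Prime] (hss : Semisimple (ρ ℓ₀)) (hT : TateMotivated (ρ ℓ₀) 𝔤) :
    ∃ r, RatRankLE 𝔤 r ∧ ∃ σ, IndependentEigenvalues (ρ ℓ₀) σ r := by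
  have hcomp : CompactSpace Gal(AlgebraicClosure K/K) := compactGal K
  have hE : EndTate (sumRep (ρ ℓ₀)) (scal ℓ₀ 𝔤) := endTate_of_tate (sumRep (ρ ℓ₀)) hT
  have hS : SqTate (sumRep (ρ ℓ₀)) (scal ℓ₀ 𝔤) :=
    sqTate_of (sumRep (ρ ℓ₀)) fun φ hφ => (hT 4 φ).1 hφ
  have hA : AbTate (sumRep (ρ ℓ₀)) (scal ℓ₀ 𝔤) := fun m φ hφ _ => (hT m φ).1 hφ
  obtain ⟨X, hX, hmin⟩ : ∃ X ∈ 𝔤, ∀ Y ∈ 𝔤, finrank ℚ (cen 𝔤 X) ≤ finrank ℚ (cen 𝔤 Y) := by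
    have hne : (Set.range fun X : 𝔤 => finrank ℚ (cen 𝔤 X.1)).Nonempty :=
      ⟨_, ⟨⟨0, 𝔤.zero_mem⟩, rfl⟩⟩
    obtain ⟨X, hX⟩ := Nat.sInf_mem hne
    refine ⟨X.1, X.2, fun Y hY => ?_⟩
    change finrank ℚ (cen 𝔤 X.1) = _ at hX
    rw [hX]
    exact Nat.sInf_le ⟨⟨Y, hY⟩, rfl⟩
  refine ⟨finrank ℚ (cen 𝔤 X), ⟨X, hX, le_rfl⟩, ?_⟩
  exact exists_indep_elt2 H T (h.continuous ℓ₀) (h.motivic ℓ₀) hss hE hS hA
    (H.dens ℓ₀ ι n 𝔤 (finrank ℚ (cen 𝔤 X)) hmin)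

/-- There are infinitely many places with Frobenius tori of maximal rank. -/
theorem placesK (h : Realizations (MonoidHom.id Gal(AlgebraicClosure K/K)) w S P ρ 𝔤) {c : ℕ}
    (hint : ∀ v ∉ S, ∀ i, ∀ a : ℂ, Polynomial.aeval a (P v i) = 0 →
      IsIntegral ℤ ((q v : ℂ) ^ c * a)) (ℓ₀ : ℕ) [hℓ₀ : Fact ℓ₀.Prime] {r : ℕ}
    {σ : Gal(AlgebraicClosure K/K)} (hσ : IndependentEigenvalues (ρ ℓ₀) σ r)
    (T : Set (HeightOneSpectrum (𝓞 K))) (hT : T.Finite) :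
    ∃ v, v ∉ T ∧ v ∉ S ∧ IndepRoots r (Set.range (P v)) := by
  obtain ⟨v, hv, hv2⟩ := exists_indepK (ρ ℓ₀) (h.continuous ℓ₀) w c
    (S ∪ {v | Above v ℓ₀} ∪ T) ((h.finite.union (finite_aboveK hℓ₀.out)).union hT) P
    (fun v hv i => h.good ℓ₀ v (fun h' => hv (Or.inl (Or.inl h')))
      (fun h' => hv (Or.inl (Or.inr h'))) i)
    (fun v hv i => hint v (fun h' => hv (Or.inl (Or.inl h'))) i) σ r hσ
  exact ⟨v, fun h' => hv (Or.inr h'), fun h' => hv (Or.inl (Or.inl h')), hv2⟩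

end gal

section main

variable {K : Type} [Field K] [NumberField K] {Γ : Type} [Group Γ] [TopologicalSpace Γ]
  [IsTopologicalGroup Γ] [CompactSpace Γ] {ι : Type} [Fintype ι] [DecidableEq ι] {n : ι → ℕ}
  {w : ι → ℤ} {S : Set (HeightOneSpectrum (𝓞 K))}
  {P : HeightOneSpectrum (𝓞 K) → ι → Polynomial ℚ} {s : Gal(AlgebraicClosure K/K) →* Γ}
  {ρ : ∀ (ℓ : ℕ) [Fact ℓ.Prime], Reps Γ n ℓ} {𝔤 : Submodule ℚ (End ℚ (Betti n))}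

theorem maximal_one_at (hK : finrank ℚ K = 1) {r p : ℕ} {v₀ : HeightOneSpectrum (𝓞 K)}
    (hp : p.Prime) (hv₀ : Above v₀ p) (hvS : v₀ ∉ S) (hr : IndepRoots r (Set.range (P v₀))) :
    MaximalRankAt S P r p := by
  refine ⟨hp, unramified_one hK hp, fun v hv => ?_, ?_, v₀, hv₀, hr⟩
  · rw [(above_one hK hp hv₀ v).1 hv]
    exact hvS
  · exact Pool.Agent.Y114.RM.independentPlaces_of_one _ (fun v => above_one hK hp hv₀ v)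

/-- The rank theorem. -/
theorem rank_all (h : Realizations s w S P ρ 𝔤) {r : ℕ} (hrank : RatRankLE 𝔤 r)
    (hpl : ∀ T : Set (HeightOneSpectrum (𝓞 K)), T.Finite →
      ∃ v, v ∉ T ∧ v ∉ S ∧ IndepRoots r (Set.range (P v)))
    (ℓ : ℕ) [hℓ : Fact ℓ.Prime] (hss : finrank ℚ K = 1 ∨ Semisimple (ρ ℓ)) :
    RankTheorem (ρ ℓ) 𝔤 r := by
  obtain ⟨v, hvT, hvS, hv⟩ := hpl {v | Above v ℓ} (finite_aboveK hℓ.out)
  rcases hss with hK | hss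
  · obtain ⟨p, f, hp, hpv, -, -⟩ := exists_residue v
    exact main_place h r hrank p (maximal_one_at hK hp hpv hvS hv) ℓ fun h' => hvT (by
      change Above v ℓ
      rw [h']
      exact hpv)
  · exact rank_place h hrank ℓ hss hvS hvT hv

theorem restrict_realizationsK (h : Realizations s w S P ρ 𝔤) :
    Realizations (MonoidHom.id Gal(AlgebraicClosure K/K)) w S P
      (fun ℓ _ => restrictTo (ρ ℓ) s) 𝔤 :=
  { continuous_point := continuous_id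
    continuous := fun ℓ _ i => (h.continuous ℓ i).comp h.continuous_point
    finite := h.finite
    good := fun ℓ _ v hv hvℓ i => h.good ℓ v hv hvℓ i
    reductive := h.reductive
    motivic := fun ℓ _ => isMotivic_restrict (h.motivic ℓ) s }

end main

section base

variable {K : Type} [Field K] [NumberField K] {ι : Type} [Fintype ι] [DecidableEq ι] {n : ι → ℕ}
  {w : ι → ℤ} {S : Set (HeightOneSpectrum (𝓞 K))}
  {P : HeightOneSpectrum (𝓞 K) → ι → Polynomial ℚ}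
  {ρ : ∀ (ℓ : ℕ) [Fact ℓ.Prime], Reps Gal(AlgebraicClosure K/K) n ℓ}
  {𝔤 : Submodule ℚ (End ℚ (Betti n))}

/-- Endomorphisms over the field of connectedness. -/
theorem subK (h : Realizations (MonoidHom.id Gal(AlgebraicClosure K/K)) w S P ρ 𝔤)
    (ℓ₀ : ℕ) [hℓ₀ : Fact ℓ₀.Prime] {r : ℕ} (Δ₀ : Subgroup Gal(AlgebraicClosure K/K))
    (hΔ₀ : Δ₀.FiniteIndex) (hconn : ConnectedOn Δ₀ (ρ ℓ₀))
    (ℓ : ℕ) [hℓ : Fact ℓ.Prime] (hR : RankTheorem (ρ ℓ) 𝔤 r) : TateMotivated (ρ ℓ) 𝔤 ↔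
      ∀ Y : End ℚ_[ℓ] (∀ i, Fin (n i) → ℚ_[ℓ]),
        (∀ γ ∈ Δ₀, sumRep (ρ ℓ) γ * Y = Y * sumRep (ρ ℓ) γ) → ∀ X ∈ scal ℓ 𝔤, X * Y = Y * X := by
  rw [hR.tate]
  refine ⟨fun h1 Y hY => h1 Y ⟨Δ₀, hΔ₀, hY⟩, fun h1 Y hY => h1 Y fun γ hγ => ?_⟩
  exact endos_fixed' Δ₀ hΔ₀ (ρ ℓ) (h.continuous ℓ) (ρ ℓ₀) (h.continuous ℓ₀) S h.finite P
    (h.good ℓ) (h.good ℓ₀) hconn hY γ hγ

/-- The case of motives without further endomorphisms. -/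
theorem blocksK (h : Realizations (MonoidHom.id Gal(AlgebraicClosure K/K)) w S P ρ 𝔤)
    (ℓ₀ : ℕ) [hℓ₀ : Fact ℓ₀.Prime] {r : ℕ} (hr : RatRankLE 𝔤 r)
    (hpl : ∀ T : Set (HeightOneSpectrum (𝓞 K)), T.Finite →
      ∃ v, v ∉ T ∧ v ∉ S ∧ IndepRoots r (Set.range (P v)))
    (h₀ : OnlyBlockScalars (ρ ℓ₀)) (hR₀ : RankTheorem (ρ ℓ₀) 𝔤 r)
    (ℓ : ℕ) [hℓ : Fact ℓ.Prime] (hR : RankTheorem (ρ ℓ) 𝔤 r) :
    TateMotivated (ρ ℓ) 𝔤 ↔ ∀ i, OnlyScalars (ρ ℓ i) := by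
  obtain ⟨v₀, hv₀T, hv₀S, hind⟩ := hpl ({v | Above v ℓ} ∪ {v | Above v ℓ₀})
    ((finite_aboveK hℓ.out).union (finite_aboveK hℓ₀.out))
  refine ⟨fun hT i => ?_, fun hirr => ?_⟩
  · have h1 : OnlyBlockScalars (ρ ℓ) := fun Y hY =>
      blocks_of_rat ℓ (rat_commutant ℓ₀ (ρ ℓ₀) (h.motivic ℓ₀) h₀) Y (hR.tate.1 hT Y hY)
    exact onlyScalars_of_blockScalars (ρ ℓ) h1 i
  · obtain ⟨𝔥₀, hk₀, hred₀⟩ := hR₀.rank
    have h1 : OnlyBlockScalars (ρ ℓ) := core (w := w) (ρ ℓ) (h.continuous ℓ) (ρ ℓ₀)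
      (h.continuous ℓ₀) S h.finite P (h.good ℓ) (h.good ℓ₀) hR.semisimple hR₀.semisimple
      (scalars ℓ₀ 𝔤) 𝔥₀ (h.motivic ℓ₀) (rank_scalars ℓ₀ hr) hk₀ hred₀ h₀ v₀ hv₀S
      (fun h' => hv₀T (Or.inl h')) (fun h' => hv₀T (Or.inr h')) hind hirr
    exact hR.tate.2 (endos_of_blockScalars (ρ ℓ) (scalars ℓ 𝔤) (IsMotivic.parts (h.motivic ℓ)) h1)

/-- Type A over the rational numbers. -/
theorem typeAK (hK : finrank ℚ K = 1)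
    (h : Realizations (MonoidHom.id Gal(AlgebraicClosure K/K)) w S P ρ 𝔤)
    (ℓ₀ : ℕ) [hℓ₀ : Fact ℓ₀.Prime] {r : ℕ} (hr : RatRankLE 𝔤 r)
    (hpl : ∀ T : Set (HeightOneSpectrum (𝓞 K)), T.Finite →
      ∃ v, v ∉ T ∧ v ∉ S ∧ IndepRoots r (Set.range (P v)))
    (hconn : ZariskiConnected (ρ ℓ₀)) (ℓ : ℕ) [Fact ℓ.Prime]
    (hA : Pool.Agent.Helper49B.TypeA 𝔤) : TateMotivated (ρ ℓ) 𝔤 := by
  obtain ⟨v₁, -, hv₁S, hv₁⟩ := hpl ∅ Set.finite_empty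
  obtain ⟨p₁, f₁, hp₁, hpv₁, -, -⟩ := exists_residue v₁
  obtain ⟨v₂, hv₂T, hv₂S, hv₂⟩ := hpl {v | Above v p₁} (finite_aboveK hp₁)
  obtain ⟨p₂, f₂, hp₂, hpv₂, -, -⟩ := exists_residue v₂
  have hne : p₁ ≠ p₂ := by
    rintro rfl
    exact hv₂T hpv₂
  exact (Pool.Agent.Helper49C.main P S ρ h r hr hne (maximal_one_at hK hp₁ hpv₁ hv₁S hv₁)
    (maximal_one_at hK hp₂ hpv₂ hv₂S hv₂) ℓ₀ hconn ℓ).2.2.2 hA

end base

end Pool.Agent.Helper49K
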