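import Pool.Agent.Helper49K.TypeA

/-!
# Degree four at one prime number, over number fields
-/

set_option autoImplicit false
set_option linter.unusedSectionVars false
set_option linter.unusedVariables false

namespace Pool.Agent.Helper49K

open Pool.Agent.Y114.RM hiding comm mem_LT_of_semisimple
open Filter Topology Module Pool.Agent.Y114.TF Pool.Agent.R913.Adj
  Pool.Agent.H204R3.GP Pool.Agent.R918.Ell Pool.Agent.Helper49N Pool.Agent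
  Pool.Agent.R931.IR Pool.Agent.N203.RE Pool.Agent.Helper49C NumberField IsDedekindDomain
  Pool.Agent.Y114.GF Pool.Agent.Helper49P Pool.Agent.Helper49A Pool.Agent.Helper49T

section gal

variable {K : Type} [Field K] [NumberField K] {ι : Type} [Fintype ι] [DecidableEq ι] {n : ι → ℕ}
  {w : ι → ℤ} {S : Set (HeightOneSpectrum (𝓞 K))}
  {P : HeightOneSpectrum (𝓞 K) → ι → Polynomial ℚ}
  {ρ : ∀ (ℓ : ℕ) [Fact ℓ.Prime], Reps Gal(AlgebraicClosure K/K) n ℓ}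
  {𝔤 : Submodule ℚ (End ℚ (Betti n))}

theorem exists_pureK (h : Realizations (MonoidHom.id Gal(AlgebraicClosure K/K)) w S P ρ 𝔤)
    (ℓ : ℕ) [hℓ : Fact ℓ.Prime] : ∃ γ, ActsPurely (ρ ℓ) w γ := by
  obtain ⟨v, hv, Q, φ, hQ, hφ, -⟩ := exists_place (ρ ℓ) (h.continuous ℓ) 1
    (r := 0) Fin.elim0 Fin.elim0 (fun k => k.elim0) (fun e _ => Subsingleton.elim _ _) ∅
    (Finset.notMem_empty _) (M := 1) one_pos Set.univ isOpen_univ (Set.mem_univ _)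
    (S ∪ {v | Above v ℓ}) (h.finite.union (finite_aboveK hℓ.out))
  have hg := h.good ℓ v (fun h' => hv (Or.inl h')) (fun h' => hv (Or.inr h'))
  refine ⟨φ⁻¹, (q v : ℝ), P v, ?_, fun i => ⟨((hg i).2 Q hQ φ).2 hφ, (hg i).1⟩⟩
  have h0 : q v ≠ 0 := by
    rw [q, Ne, Ideal.absNorm_eq_zero_iff]
    exact v.ne_bot
  have h1 : q v ≠ 1 := by
    rw [q, Ne, Ideal.absNorm_eq_one_iff]
    exact v.isPrime.ne_top
  have h2 : 1 < q v := by omega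
  exact_mod_cast h2

/-- At the prime number `ℓ₀`: the tangent space is everything, and there is an element of maximal
rank. -/
theorem keyFour (H : Pieces) (h : Realizations (MonoidHom.id Gal(AlgebraicClosure K/K)) w S P ρ 𝔤)
    (hc : ∀ Z ∈ 𝔤, (∀ Y ∈ 𝔤, Z * Y = Y * Z) → ∃ c : ℚ, Z = c • ratW w)
    (ℓ₀ : ℕ) [hℓ₀ : Fact ℓ₀.Prime] (hss : Semisimple (ρ ℓ₀)) (hend : TateEndomorphisms (ρ ℓ₀) 𝔤)
    (hsq : SqTate (sumRep (ρ ℓ₀)) (scal ℓ₀ 𝔤)) :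
    ∃ r, RatRankLE 𝔤 r ∧ ∃ σ, IndependentEigenvalues (ρ ℓ₀) σ r := by
  have hcomp : CompactSpace Gal(AlgebraicClosure K/K) := compactGal K
  have hE : EndTate (sumRep (ρ ℓ₀)) (scal ℓ₀ 𝔤) := by
    rintro Q ⟨Δ, hΔ, hQ⟩ X hX
    exact hend Q ⟨Δ, hΔ, fun γ hγ => (hQ γ hγ).symm⟩ X hX
  have h1 : scal ℓ₀ 𝔤 ≤ tng (ρ ℓ₀) H.tan1 := le_tng H.tan1 H.tan2 H.log H.alg H.der H.cart H.perp
    (H.det H.der) H.wnum (h.continuous ℓ₀) (h.motivic ℓ₀) hss hE hsq w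
    (fun _ => exists_pureK h ℓ₀) (centre_scalars ℓ₀ hc)
  -- the rank
  obtain ⟨X, hX, hmin⟩ : ∃ X ∈ 𝔤, ∀ Y ∈ 𝔤, finrank ℚ (cen 𝔤 X) ≤ finrank ℚ (cen 𝔤 Y) := by
    have hne : (Set.range fun X : 𝔤 => finrank ℚ (cen 𝔤 X.1)).Nonempty :=
      ⟨_, ⟨⟨0, 𝔤.zero_mem⟩, rfl⟩⟩
    obtain ⟨X, hX⟩ := Nat.sInf_mem hne
    refine ⟨X.1, X.2, fun Y hY => ?_⟩
    change finrank ℚ (cen 𝔤 X.1) = _ at hX
    rw [hX]
    exact Nat.sInf_le ⟨⟨Y, hY⟩, rfl⟩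
  refine ⟨finrank ℚ (cen 𝔤 X), ⟨X, hX, le_rfl⟩, ?_⟩
  exact exists_indep_elt H (h.continuous ℓ₀) (h.motivic ℓ₀) h1
    (H.dens ℓ₀ ι n 𝔤 (finrank ℚ (cen 𝔤 X)) hmin)

end gal

section fund

variable {K : Type} [Field K] [NumberField K] {ι : Type} [Fintype ι] [DecidableEq ι] {n : ι → ℕ}
  {w : ι → ℤ} {S : Set (HeightOneSpectrum (𝓞 K))}
  {P : HeightOneSpectrum (𝓞 K) → ι → Polynomial ℚ}
  {Γ : Type} [Group Γ] [TopologicalSpace Γ] {s : Gal(AlgebraicClosure K/K) →* Γ}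
  {ρ : ∀ (ℓ : ℕ) [Fact ℓ.Prime], Reps Γ n ℓ} {𝔤 : Submodule ℚ (End ℚ (Betti n))}

/-- The tangent space at a prime number at which all Tate tensors are motivated. -/
theorem tangentK [IsTopologicalGroup Γ] [CompactSpace Γ] (H : Pieces)
    (h : Realizations s w S P ρ 𝔤)
    (hc : ∀ Z ∈ 𝔤, (∀ Y ∈ 𝔤, Z * Y = Y * Z) → ∃ c : ℚ, Z = c • ratW w)
    (ℓ : ℕ) [Fact ℓ.Prime] (hss : Semisimple (ρ ℓ)) (hT : TateMotivated (ρ ℓ) 𝔤) :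
    scal ℓ 𝔤 ≤ tng (ρ ℓ) H.tan1 := by
  have hE : EndTate (sumRep (ρ ℓ)) (scal ℓ 𝔤) := endTate_of_tate (sumRep (ρ ℓ)) hT
  have hS : SqTate (sumRep (ρ ℓ)) (scal ℓ 𝔤) := sqTate_of (sumRep (ρ ℓ)) fun φ hφ => (hT 4 φ).1 hφ
  refine le_tng H.tan1 H.tan2 H.log H.alg H.der H.cart H.perp
    (H.det H.der) H.wnum (h.continuous ℓ) (h.motivic ℓ) hss hE hS w
    (fun _ => ?_) (centre_scalars ℓ hc)
  obtain ⟨σ, hσ⟩ := exists_pureK (restrict_realizationsK h) ℓ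
  exact ⟨s σ, hσ⟩

end fund

end Pool.Agent.Helper49K
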