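import Pool.Agent.Helper49T.All

/-!
# The rank theorem for semisimple realizations over number fields
-/

set_option autoImplicit false
set_option linter.unusedSectionVars false
set_option linter.unusedVariables false

namespace Pool.Agent.Helper49K

open NumberField IsDedekindDomain Module Polynomial TensorProduct Pool.Agent.Y114.RM
  Pool.Agent.Y114.TF Pool.Agent.Y114.GF Pool.Agent.Y114.MU Pool.Agent.H204R3.GP
  Pool.Agent.R931.IR Pool.Agent.R931.BD Pool.Agent.W571.FM Pool.Agent.W569.FM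
  Pool.Agent.N203.RE Pool.Agent.Helper49A Pool.Agent.TH118.SG Pool.Agent.Y115.R Pool.Agent.Y115.T
  Pool.Agent.Y115.Chi

section main

variable {Γ : Type} [Group Γ] [TopologicalSpace Γ] [IsTopologicalGroup Γ] [CompactSpace Γ]
  {ι : Type} [Fintype ι] [DecidableEq ι] {n : ι → ℕ} {ℓ : ℕ} [hℓ : Fact ℓ.Prime]

/-- The rank theorem for semisimple realizations, from one element of maximal rank. -/
theorem rank_main {ρ : Reps Γ n ℓ} (hρ : Conts ρ) {𝔤 : Submodule ℚ (End ℚ (Betti n))}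
    (hg : Reductive 𝔤) (hmot : Motivic ρ (scalars ℓ 𝔤)) {r : ℕ} (hrank : RatRankLE 𝔤 r)
    (hss : Semisimple ρ) [alg : Algebra ℚ_[ℓ] ℂ] (g₀ : Γ) (z : Fin r → ℂ)
    (hz' : ∀ i, End.HasEigenvalue ((sumRep ρ g₀).baseChange ℂ) (z i))
    (hind : ∀ e : Fin r → ℤ, ∏ i, z i ^ e i = 1 → e = 0) : RankTheorem ρ 𝔤 r := by
  classical
  have h := inputs
  have h2 := inputs2
  have h𝔤 : IsMotivic ρ (scal ℓ 𝔤) := hmot
  obtain ⟨L, hL, hLie, hAd, hlog⟩ := h.lie ℚ_[ℓ] (∀ i, Fin (n i) → ℚ_[ℓ]) _ (sumRep ρ)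
  have hLG : L ≤ scal ℓ 𝔤 := fun X hX =>
    h𝔤.algebraic X fun m φ hφ => ((hL X).1 hX).2 m φ (h𝔤.tate m φ hφ)
  have hND : NonDeg L := Pool.Agent.R913.Adj.nonDeg_of_semisimple hss hL hLie hAd
  have hcen := torus_cen (sumRep ρ) h h2.jord h2.cartan hL hLG h𝔤.bracket h𝔤.nondeg h𝔤.algebraic
    (rank_scalars ℓ hrank) g₀ z hz' hind
  refine rankTheorem_of hρ hg hmot hrank ⟨L, alg, tor ((sumRep ρ g₀).baseChange ℂ), hss,
    fun X => ⟨fun hX => ((hL X).1 hX).2, fun hX =>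
      (hL X).2 (mem_LT_of_semisimple (sumRep ρ) hss hX)⟩, hLie, hLG, hND, ?_, hlog,
    tor_le (sumRep ρ) h hL g₀, tor_diag _, tor_comm _, hcen⟩
  intro x hx
  obtain ⟨θ', θ, p, hp⟩ := h.rd _ ((sumRep ρ g₀).baseChange ℂ)
    (injective_of_mul (g' := (sumRep ρ g₀⁻¹).baseChange ℂ)
      (by rw [← bc_mul, Pool.Agent.Y114.RM.rho_inv_mul, bc_one])) r z hz' hind
  obtain ⟨h', hh'⟩ := exists_op ((sumRep ρ g₀).baseChange ℂ) (fun z => ext0 θ' z)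
  have hex : ∀ j, ∃ t : End ℂ (ℂ ⊗[ℚ_[ℓ]] (∀ i, Fin (n i) → ℚ_[ℓ])),
      IsOp (θ j) ((sumRep ρ g₀).baseChange ℂ) t := fun j =>
    exists_op ((sumRep ρ g₀).baseChange ℂ) (fun z => ext0 (θ j) z)
  choose t ht using hex
  have h3 := inputs3.rank ℂ _ (bcS ℂ L) ((h.bc ℚ_[ℓ] ℂ _ L).2.1 hLie) h'
    (op_mem (sumRep ρ) h hL _ θ' h' hh') r p t
    (fun j => op_mem (sumRep ρ) h hL _ (θ j) (t j) (ht j)) (hp h' t hh' ht) (x.baseChange ℂ)
    (mem_bcS hx)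
  rwa [(h.bc ℚ_[ℓ] ℂ _ L).2.2.2.1 x] at h3

end main

section place

variable {K : Type} [Field K] [NumberField K] {Γ : Type} [Group Γ] [TopologicalSpace Γ]
  {ι : Type} [Fintype ι] [DecidableEq ι] {n : ι → ℕ} [IsTopologicalGroup Γ] [CompactSpace Γ]

/-- The rank theorem for semisimple realizations, from one place of maximal rank. -/
theorem rank_place {s : Gal(AlgebraicClosure K/K) →* Γ} {w : ι → ℤ}
    {S : Set (HeightOneSpectrum (𝓞 K))} {P : HeightOneSpectrum (𝓞 K) → ι → Polynomial ℚ}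
    {ρ : ∀ (ℓ : ℕ) [Fact ℓ.Prime], Reps Γ n ℓ} {𝔤 : Submodule ℚ (End ℚ (Betti n))}
    (h : Realizations s w S P ρ 𝔤) {r : ℕ} (hrank : RatRankLE 𝔤 r)
    (ℓ : ℕ) [Fact ℓ.Prime] (hss : Semisimple (ρ ℓ)) {v : HeightOneSpectrum (𝓞 K)} (hvS : v ∉ S)
    (hvℓ : ¬ Above v ℓ) (hv : IndepRoots r (Set.range (P v))) :
    RankTheorem (ρ ℓ) 𝔤 r := by
  obtain ⟨j⟩ := exists_emb ℓ
  let alg : Algebra ℚ_[ℓ] ℂ := (j.comp (algebraMap ℚ_[ℓ] (PadicAlgCl ℓ))).toAlgebra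
  obtain ⟨Q, φ, hQ, hQv, hφ⟩ := frob_cm v
  obtain ⟨z, hz, hzind⟩ := hv
  have hchar : ∀ i, (ρ ℓ i (s φ⁻¹)).charpoly = (P v i).map (algebraMap ℚ ℚ_[ℓ]) := fun i =>
    ((h.good ℓ v hvS hvℓ i).2 Q ⟨hQ.isPrime, hQv⟩ φ).2 hφ
  refine rank_main (h.continuous ℓ) h.reductive (h.motivic ℓ) hrank hss (s φ⁻¹) z (fun k => ?_)
    hzind
  obtain ⟨_, ⟨i, rfl⟩, hi⟩ := hz k
  exact sumRep_eigen (ρ ℓ) (s φ⁻¹) (hchar i) hi

end place

end Pool.Agent.Helper49K
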