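import Pool.Agent.Helper49K.Four

/-!
# Degree four at one prime number, over number fields: the theorem
-/

set_option autoImplicit false
set_option linter.unusedSectionVars false
set_option linter.unusedVariables false

noncomputable section

namespace Pool.Agent.Helper49K

open NumberField IsDedekindDomain Module TensorProduct Filter Topology Pool.Agent.Y114.RM
  Pool.Agent.Y114.GF Pool.Agent.Y114.TF Pool.Agent.R931.IR Pool.Agent.N203.RE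
  Pool.Agent.Helper49C

/-- Type A, for the complexification. -/
def TypeAC {V : Type} [AddCommGroup V] [Module ℂ V] (G : Submodule ℂ (End ℂ V)) : Prop :=
  ∃ (J : ℕ) (N : Fin J → ℕ) (f : ∀ j, End ℂ V →ₗ[ℂ] Matrix (Fin (N j)) (Fin (N j)) ℂ),
  (∀ j, ∀ X ∈ G, ∀ Y ∈ G, f j (X * Y - Y * X) = f j X * f j Y - f j Y * f j X) ∧
    (∀ X ∈ G, (∀ j, f j X = 0) → ∀ Y ∈ G, X * Y = Y * X) ∧
    ∀ A : (∀ j, Matrix (Fin (N j)) (Fin (N j)) ℂ), (∀ j, (A j).trace = 0) → ∃ X ∈ G, ∀ j, f j X = A j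

/-- Connectedness, in terms of linear functionals. -/
def Conn {k V Γ : Type} [Field k] [AddCommGroup V] [Module k V] [Group Γ]
    (ρ : Representation k Γ V) : Prop :=
  ∀ Δ : Subgroup Γ, Δ.FiniteIndex → ∀ f : MvPolynomial (End k V →ₗ[k] k) k,
    (∀ γ ∈ Δ, MvPolynomial.eval (fun ξ => ξ (ρ γ)) f = 0) →
      ∀ γ : Γ, MvPolynomial.eval (fun ξ => ξ (ρ γ)) f = 0

/-- Logarithms up to powers of `ℓ`. -/
def Logs {ℓ : ℕ} [Fact ℓ.Prime] {V Γ : Type} [AddCommGroup V] [Module ℚ_[ℓ] V] [Group Γ]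
    (ρ : Representation ℚ_[ℓ] Γ V) (𝔥 : Submodule ℚ_[ℓ] (End ℚ_[ℓ] V)) : Prop :=
  ∀ X ∈ 𝔥, ∃ (m : ℕ) (γ : Γ), ∀ (x : V) (f : V →ₗ[ℚ_[ℓ]] ℚ_[ℓ]),
    Tendsto (fun k : ℕ => f (((ρ γ) ^ (ℓ ^ k)) x - x) / (ℓ : ℚ_[ℓ]) ^ k) atTop
      (𝓝 ((ℓ : ℚ_[ℓ]) ^ m * f (X x)))

theorem typeA_raw {H : Type} [AddCommGroup H] [Module ℚ H] (𝔤 : Submodule ℚ (End ℚ H))
    (h : TypeAC (bcS ℂ 𝔤)) : Pool.Agent.Helper49B.TypeA 𝔤 := by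
  obtain ⟨J, N, f, h1, h2, h3⟩ := h
  refine ⟨J, N, LinearMap.pi f, fun X hX Y hY => funext fun j => h1 j X hX Y hY, fun X hX h0 => ?_,
    fun A hA => ?_⟩
  · exact h2 X hX fun j => congrFun h0 j
  · obtain ⟨X, hX, h4⟩ := h3 A hA
    exact ⟨X, hX, funext h4⟩

theorem conn_raw {Γ : Type} [Group Γ] {ι : Type} [DecidableEq ι] {n : ι → ℕ} {ℓ : ℕ}
    [Fact ℓ.Prime] (ρ : Reps Γ n ℓ) (h : Conn (sumRep ρ)) : ZariskiConnected ρ := by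
  intro Δ hΔ f hf
  let ξ : (Σ i, Fin (n i) × Fin (n i)) →
      (End ℚ_[ℓ] (∀ i, Fin (n i) → ℚ_[ℓ]) →ₗ[ℚ_[ℓ]] ℚ_[ℓ]) := fun x =>
    LinearMap.proj x.2.1 ∘ₗ LinearMap.proj x.1 ∘ₗ
      LinearMap.applyₗ (Pi.single x.1 (Pi.single x.2.2 1))
  have h1 : ∀ γ, (fun x => ξ x (sumRep ρ γ)) = entries ρ γ := by
    intro γ
    refine funext fun x => ?_
    have h2 : ξ x (sumRep ρ γ) =
        ρ x.1 γ ((Pi.single x.1 (Pi.single x.2.2 1) : ∀ i, Fin (n i) → ℚ_[ℓ]) x.1) x.2.1 := rfl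
    rw [h2, Pi.single_eq_same]
    rfl
  have h3 : ∀ γ, MvPolynomial.eval (fun ζ => ζ (sumRep ρ γ)) (MvPolynomial.rename ξ f) =
      MvPolynomial.eval (entries ρ γ) f := by
    intro γ
    rw [MvPolynomial.eval_rename, ← h1]
    rfl
  intro γ
  rw [← h3]
  exact h Δ hΔ _ (fun δ hδ => (h3 δ).trans (hf δ hδ)) γ

/-- The theorem, with all definitions unfolded. -/
theorem four_all {K : Type} [Field K] [NumberField K] {Γ : Type} [Group Γ] [TopologicalSpace Γ]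
    [IsTopologicalGroup Γ] [CompactSpace Γ] {ι : Type} [Fintype ι] [DecidableEq ι] {n : ι → ℕ}
    {s : Gal(AlgebraicClosure K/K) →* Γ} {w : ι → ℤ} {S : Set (HeightOneSpectrum (𝓞 K))}
    {P : HeightOneSpectrum (𝓞 K) → ι → Polynomial ℚ} {ρ : ∀ (ℓ : ℕ) [Fact ℓ.Prime], Reps Γ n ℓ}
    {𝔤 : Submodule ℚ (End ℚ (Betti n))} (h : Realizations s w S P ρ 𝔤) {c : ℕ}
    (hint : ∀ v ∉ S, ∀ i, ∀ a : ℂ, Polynomial.aeval a (P v i) = 0 →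
      IsIntegral ℤ ((q v : ℂ) ^ c * a))
    (hcen : ∀ Z ∈ 𝔤, (∀ Y ∈ 𝔤, Z * Y = Y * Z) →
      ∃ c : ℚ, ∀ x : Betti n, Z x = fun i j => c * w i * x i j)
    {ℓ₀ : ℕ} [Fact ℓ₀.Prime] (hss : Semisimple (restrictTo (ρ ℓ₀) s))
    (hend : TateEndomorphisms (restrictTo (ρ ℓ₀) s) 𝔤)
    (hsq : Pool.Agent.Helper49N.SqTate (sumRep (restrictTo (ρ ℓ₀) s)) (scal ℓ₀ 𝔤)) :
    (∃ r, RatRankLE 𝔤 r ∧ ∀ (ℓ : ℕ) [Fact ℓ.Prime], finrank ℚ K = 1 ∨ Semisimple (ρ ℓ) →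
      MaximalRank (ρ ℓ) 𝔤 r) ∧
    (∀ (ℓ : ℕ) [Fact ℓ.Prime], finrank ℚ K = 1 ∨ Semisimple (ρ ℓ) →
      Semisimple (ρ ℓ) ∧ (TateMotivated (ρ ℓ) 𝔤 ↔ TateEndomorphisms (ρ ℓ) 𝔤) ∧
      (TateMotivated (ρ ℓ) 𝔤 → Logs (sumRep (ρ ℓ)) (scalars ℓ 𝔤))) ∧
    (Conn (sumRep (restrictTo (ρ ℓ₀) s)) → ∀ (ℓ : ℕ) [Fact ℓ.Prime],
      finrank ℚ K = 1 ∨ Semisimple (restrictTo (ρ ℓ) s) →
      (TateMotivated (restrictTo (ρ ℓ) s) 𝔤 ↔ EndosOverBase (restrictTo (ρ ℓ) s) 𝔤) ∧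
      (TypeAC (bcS ℂ 𝔤) → (TateMotivated (restrictTo (ρ ℓ) s) 𝔤 ↔
        ∀ Y : End ℚ_[ℓ] (∀ i, Fin (n i) → ℚ_[ℓ]),
        (∀ γ, sumRep (restrictTo (ρ ℓ) s) γ * Y = Y * sumRep (restrictTo (ρ ℓ) s) γ) →
        (∀ Z : End ℚ_[ℓ] (∀ i, Fin (n i) → ℚ_[ℓ]),
          (∀ γ, sumRep (restrictTo (ρ ℓ) s) γ * Z = Z * sumRep (restrictTo (ρ ℓ) s) γ) →
            Y * Z = Z * Y) → ∀ X ∈ scal ℓ 𝔤, X * Y = Y * X)) ∧
      (finrank ℚ K = 1 → TypeAC (bcS ℂ 𝔤) → TateMotivated (restrictTo (ρ ℓ) s) 𝔤)) := by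
  have H : Pool.Agent.Helper49P.Pieces := Pool.Agent.Helper49P.pieces
  have hc : ∀ Z ∈ 𝔤, (∀ Y ∈ 𝔤, Z * Y = Y * Z) →
      ∃ c : ℚ, Z = c • Pool.Agent.Helper49P.ratW w := by
    intro Z hZ hZc
    obtain ⟨c, h1⟩ := hcen Z hZ hZc
    refine ⟨c, LinearMap.ext fun x => funext fun i => funext fun j => ?_⟩
    rw [h1 x]
    exact mul_assoc _ _ _
  have hr := restrict_realizationsK h
  have hcomp : CompactSpace Gal(AlgebraicClosure K/K) := Pool.Agent.Helper49P.compactGal K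
  obtain ⟨r, hr1, σ, hσ⟩ := keyFour H hr hc ℓ₀ hss hend hsq
  have hpl := placesK hr hint ℓ₀ hσ
  have hR : ∀ (ℓ : ℕ) [Fact ℓ.Prime], finrank ℚ K = 1 ∨ Semisimple (ρ ℓ) →
      RankTheorem (ρ ℓ) 𝔤 r := fun ℓ _ hℓ => rank_all h hr1 hpl ℓ hℓ
  refine ⟨⟨r, hr1, fun ℓ _ hℓ => (hR ℓ hℓ).rank⟩, fun ℓ _ hℓ => ⟨(hR ℓ hℓ).semisimple,
    (hR ℓ hℓ).tate, fun hT X hX => ?_⟩, fun hconn ℓ _ hℓ => ?_⟩
  · have h1 := tangentK H h hc ℓ (hR ℓ hℓ).semisimple hT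
    obtain ⟨m, γ, h2⟩ := Pool.Agent.Helper49P.exists_log' H (h.continuous ℓ) (h1 hX)
    refine ⟨m, γ, fun x f => ?_⟩
    have h3 : Tendsto (fun k : ℕ => (((ℓ : ℚ_[ℓ]) ^ k)⁻¹) • ((sumRep (ρ ℓ) γ ^ (ℓ ^ k)) x - x)) atTop
        (𝓝 ((((ℓ : ℚ_[ℓ]) ^ m) • X) x)) := tendsto_pi_nhds.2 fun i => h2 x i
    have h4 := ((LinearMap.continuous_of_finiteDimensional f).tendsto _).comp h3
    rw [LinearMap.smul_apply, map_smul, smul_eq_mul] at h4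
    refine h4.congr fun k => ?_
    rw [Function.comp_apply, map_smul, smul_eq_mul, div_eq_inv_mul]
  · have hconn' := conn_raw _ hconn
    have hcT : Pool.Agent.Helper49T.ConnectedOn ⊤ (restrictTo (ρ ℓ₀) s) :=
      fun Δ _ hΔ f hf γ _ => hconn' Δ hΔ f hf γ
    have hR1 : RankTheorem (restrictTo (ρ ℓ) s) 𝔤 r := rank_all hr hr1 hpl ℓ hℓ
    refine ⟨?_, fun hA => ?_, fun hK hA => ?_⟩
    · rw [subK hr ℓ₀ ⊤ inferInstance hcT ℓ hR1]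
      exact ⟨fun h1 Y hY => h1 Y fun γ _ => hY γ, fun h1 Y hY => h1 Y fun γ => hY γ trivial⟩
    · rw [typeA_central hr ℓ₀ hr1 hpl ⊤ inferInstance hcT (typeA_raw 𝔤 hA) ℓ hR1]
      exact ⟨fun h1 Y hY hZ => h1 Y (fun γ _ => hY γ) fun Z hZ' => hZ Z fun γ => hZ' γ trivial,
        fun h1 Y hY hZ => h1 Y (fun γ => hY γ trivial) fun Z hZ' => hZ Z fun γ _ => hZ' γ⟩
    · exact typeAK hK hr ℓ₀ hr1 hpl hconn' ℓ (typeA_raw 𝔤 hA)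

end Pool.Agent.Helper49K
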