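import Pool.Agent.Helper49K.Raw
import Pool.Agent.Helper49K.Cliff

/-!
# Degree four at one prime number: semisimplicity over the base field
-/

set_option autoImplicit false
set_option linter.unusedSectionVars false
set_option linter.unusedVariables false

noncomputable section

namespace Pool.Agent.Helper49K

open NumberField IsDedekindDomain Module TensorProduct Filter Topology Pool.Agent.Y114.RM
  Pool.Agent.Y114.GF Pool.Agent.Y114.TF Pool.Agent.R931.IR Pool.Agent.N203.RE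
  Pool.Agent.Helper49C

/-- The theorem, with semisimplicity over the base field only in the hypotheses. -/
theorem four_all2 {K : Type} [Field K] [NumberField K] {Γ : Type} [Group Γ] [TopologicalSpace Γ]
    [IsTopologicalGroup Γ] [CompactSpace Γ] {ι : Type} [Fintype ι] [DecidableEq ι] {n : ι → ℕ}
    {s : Gal(AlgebraicClosure K/K) →* Γ} {w : ι → ℤ} {S : Set (HeightOneSpectrum (𝓞 K))}
    {P : HeightOneSpectrum (𝓞 K) → ι → Polynomial ℚ} {ρ : ∀ (ℓ : ℕ) [Fact ℓ.Prime], Reps Γ n ℓ}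
    {𝔤 : Submodule ℚ (End ℚ (Betti n))} (h : Realizations s w S P ρ 𝔤) {c : ℕ}
    (hint : ∀ v ∉ S, ∀ i, ∀ a : ℂ, Polynomial.aeval a (P v i) = 0 →
      IsIntegral ℤ ((q v : ℂ) ^ c * a))
    (hcen : ∀ Z ∈ 𝔤, (∀ Y ∈ 𝔤, Z * Y = Y * Z) →
      ∃ c : ℚ, ∀ x : Betti n, Z x = fun i j => c * w i * x i j)
    {ℓ₀ : ℕ} [Fact ℓ₀.Prime] (hss : IsSemisimpleRep (sumRep (restrictTo (ρ ℓ₀) s)))
    (hend : TateEndomorphisms (restrictTo (ρ ℓ₀) s) 𝔤)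
    (hsq : Pool.Agent.Helper49N.SqTate (sumRep (restrictTo (ρ ℓ₀) s)) (scal ℓ₀ 𝔤)) :
    (∃ r, RatRankLE 𝔤 r ∧ ∀ (ℓ : ℕ) [Fact ℓ.Prime],
      finrank ℚ K = 1 ∨ IsSemisimpleRep (sumRep (ρ ℓ)) → MaximalRank (ρ ℓ) 𝔤 r) ∧
    (∀ (ℓ : ℕ) [Fact ℓ.Prime], finrank ℚ K = 1 ∨ IsSemisimpleRep (sumRep (ρ ℓ)) →
      Semisimple (ρ ℓ) ∧ (TateMotivated (ρ ℓ) 𝔤 ↔ TateEndomorphisms (ρ ℓ) 𝔤) ∧
      (TateMotivated (ρ ℓ) 𝔤 → Logs (sumRep (ρ ℓ)) (scalars ℓ 𝔤))) ∧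
    (Conn (sumRep (restrictTo (ρ ℓ₀) s)) → ∀ (ℓ : ℕ) [Fact ℓ.Prime],
      finrank ℚ K = 1 ∨ IsSemisimpleRep (sumRep (restrictTo (ρ ℓ) s)) →
      (TateMotivated (restrictTo (ρ ℓ) s) 𝔤 ↔ EndosOverBase (restrictTo (ρ ℓ) s) 𝔤) ∧
      (TypeAC (bcS ℂ 𝔤) → (TateMotivated (restrictTo (ρ ℓ) s) 𝔤 ↔
        ∀ Y : End ℚ_[ℓ] (∀ i, Fin (n i) → ℚ_[ℓ]),
        (∀ γ, sumRep (restrictTo (ρ ℓ) s) γ * Y = Y * sumRep (restrictTo (ρ ℓ) s) γ) →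
        (∀ Z : End ℚ_[ℓ] (∀ i, Fin (n i) → ℚ_[ℓ]),
          (∀ γ, sumRep (restrictTo (ρ ℓ) s) γ * Z = Z * sumRep (restrictTo (ρ ℓ) s) γ) →
            Y * Z = Z * Y) → ∀ X ∈ scal ℓ 𝔤, X * Y = Y * X)) ∧
      (finrank ℚ K = 1 → TypeAC (bcS ℂ 𝔤) → TateMotivated (restrictTo (ρ ℓ) s) 𝔤)) := by
  obtain ⟨⟨r, h0, h1⟩, h2, h3⟩ := four_all h hint hcen (fis_of_semisimple hss) hend hsq
  exact ⟨⟨r, h0, fun ℓ _ hℓ => h1 ℓ (hℓ.imp id fun h' => fis_of_semisimple h')⟩,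
    fun ℓ _ hℓ => h2 ℓ (hℓ.imp id fun h' => fis_of_semisimple h'),
    fun hc ℓ _ hℓ => h3 hc ℓ (hℓ.imp id fun h' => fis_of_semisimple h')⟩

end Pool.Agent.Helper49K
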