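import Pool.Agent.Helper49K.Fin

/-!
# Type A over number fields: central endomorphisms
-/

set_option autoImplicit false
set_option linter.unusedSectionVars false
set_option linter.unusedVariables false

namespace Pool.Agent.Helper49K

open NumberField IsDedekindDomain Module Polynomial TensorProduct Pool.Agent.Y114.RM
  Pool.Agent.Y114.TF Pool.Agent.Y114.GF Pool.Agent.Y114.MU Pool.Agent.H204R3.GP
  Pool.Agent.R931.IR Pool.Agent.R931.BD Pool.Agent.W571.FM Pool.Agent.W569.FM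
  Pool.Agent.N203.RE Pool.Agent.Helper49A Pool.Agent.Helper49C Pool.Agent.Helper49T
open Pool.Agent.Helper49B (central_bcS CenterTheorem CentralScalars TypeA exists_generator full_typeA
  onto_scal)

section main

variable {K : Type} [Field K] [NumberField K] {ι : Type} [Fintype ι] [DecidableEq ι] {n : ι → ℕ}
  {w : ι → ℤ} {ℓ ℓ₀ : ℕ} [hℓ : Fact ℓ.Prime] [hℓ₀ : Fact ℓ₀.Prime]

/-- Type A. -/
theorem full_main' (ρ : ∀ i, Representation ℚ_[ℓ] Gal(AlgebraicClosure K/K) (Fin (n i) → ℚ_[ℓ]))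
    (w : ι → ℤ) (S : Set (HeightOneSpectrum (𝓞 K)))
    (P : HeightOneSpectrum (𝓞 K) → ι → ℚ[X])
    (hP : ∀ v ∉ S, ¬ Above v ℓ → ∀ i, GoodReduction ρ i (w i) v (P v i))
    {𝔤 : Submodule ℚ (End ℚ (Betti n))} (h𝔤 : IsMotivic ρ (scal ℓ 𝔤)) {r : ℕ}
    (hrk : RankAtMost (scal ℓ 𝔤) r) (hss : FiniteIndexSemisimple (sumRep ρ))
    {L : Submodule ℚ_[ℓ] (End ℚ_[ℓ] (∀ i, Fin (n i) → ℚ_[ℓ]))}
    (hLT : ∀ X, X ∈ L ↔ ∀ (m : ℕ) (φ : Tensor ℚ_[ℓ] (∀ i, Fin (n i) → ℚ_[ℓ]) m),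
      TateTensor (sumRep ρ) φ → KillsTensor X φ) (hLie : IsLie L) (hND : NonDeg L)
    (hLG : L ≤ scal ℓ 𝔤)
    (hcen : ∀ X ∈ L, (∀ Y ∈ L, Y * X = X * Y) → ∀ Y ∈ scal ℓ 𝔤, X * Y = Y * X)
    {v : HeightOneSpectrum (𝓞 K)} (hvS : v ∉ S) (hvℓ : ¬ Above v ℓ)
    (hrv : IndepRoots r (Set.range (P v)))
    (hA : TypeA 𝔤) : L = scal ℓ 𝔤 := by
  classical
  have h := inputs
  have h2 := inputs2
  obtain ⟨j⟩ := exists_emb ℓ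
  let alg : Algebra ℚ_[ℓ] ℂ := (j.comp (algebraMap ℚ_[ℓ] (PadicAlgCl ℓ))).toAlgebra
  have hL : ∀ X, X ∈ L ↔ X ∈ LT (sumRep ρ) := fun X =>
    ⟨fun hX => mem_LT_of_semisimple (sumRep ρ) hss ((hLT X).1 hX), fun hX => (hLT X).2 hX.2⟩
  -- the place of maximal rank
  obtain ⟨z, hz, hzind⟩ := hrv
  obtain ⟨Q, φ, hQ, hQv, hφ⟩ := frob_cm v
  have hchar : ∀ i, (ρ i φ⁻¹).charpoly = (P v i).map (algebraMap ℚ ℚ_[ℓ]) := fun i =>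
    ((hP v hvS hvℓ i).2 Q ⟨hQ.isPrime, hQv⟩ φ).2 hφ
  have hz' : ∀ j, End.HasEigenvalue ((sumRep ρ φ⁻¹).baseChange ℂ) (z j) := by
    intro j
    obtain ⟨_, ⟨i, rfl⟩, hi⟩ := hz j
    exact sumRep_eigen ρ φ⁻¹ (hchar i) hi
  set gC : End ℂ (ℂ ⊗[ℚ_[ℓ]] (∀ i, Fin (n i) → ℚ_[ℓ])) := (sumRep ρ φ⁻¹).baseChange ℂ with hgC
  set g'C : End ℂ (ℂ ⊗[ℚ_[ℓ]] (∀ i, Fin (n i) → ℚ_[ℓ])) :=
    (sumRep ρ (φ⁻¹)⁻¹).baseChange ℂ with hg'C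
  have hgg' : gC * g'C = 1 := by rw [hgC, hg'C, ← bc_mul, Pool.Agent.Y114.RM.rho_mul_inv, bc_one]
  have hg'g : g'C * gC = 1 := by rw [hgC, hg'C, ← bc_mul, Pool.Agent.Y114.RM.rho_inv_mul, bc_one]
  have htorus := torus_cen (sumRep ρ) h h2.jord h2.cartan hL hLG h𝔤.bracket h𝔤.nondeg h𝔤.algebraic
      hrk φ⁻¹ z hz' hzind
  obtain ⟨d, hd, hgen⟩ := exists_generator gC g'C hg'g
  obtain ⟨J, N, f, hf1, hf2, hf3⟩ := hA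
  have hfull : bcS ℂ L = bcS ℂ (scal ℓ 𝔤) := by
    refine full_typeA ((h.bc ℚ_[ℓ] ℂ _ (scal ℓ 𝔤)).2.1 h𝔤.bracket)
      ((h.bc ℚ_[ℓ] ℂ _ L).2.1 hLie) (bcS_mono hLG) ((h.bc ℚ_[ℓ] ℂ _ L).2.2.1 hND)
      (onto_scal ℓ (𝔤 := 𝔤) (N := N) (f := f) ⟨hf1, hf2, hf3⟩) (t := tor gC)
      (tor_le (sumRep ρ) h hL φ⁻¹) ?_ hd ?_ ?_
    · rintro a ⟨θ, ha⟩
      exact tor_diag (AdE gC g'C) (adE a) ⟨θ, h.ad ℂ _ θ gC g'C a hgg' hg'g ha⟩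
    · intro x hx hdx
      exact htorus x hx fun a ha => hgen x hdx a ha
    · intro z hz hzc
      exact central_bcS h (fun X hX hXc Y hY => (hcen X hX hXc Y hY).symm) hz hzc
  exact (h.bc ℚ_[ℓ] ℂ _ (scal ℓ 𝔤)).2.2.2.2.1 L hLG hfull

/-- Type A: the central endomorphisms. -/
theorem typeA_central {S : Set (HeightOneSpectrum (𝓞 K))}
    {P : HeightOneSpectrum (𝓞 K) → ι → Polynomial ℚ}
    {ρ : ∀ (ℓ : ℕ) [Fact ℓ.Prime], Reps Gal(AlgebraicClosure K/K) n ℓ}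
    {𝔤 : Submodule ℚ (End ℚ (Betti n))}
    (h : Realizations (MonoidHom.id Gal(AlgebraicClosure K/K)) w S P ρ 𝔤)
    (ℓ₀ : ℕ) [hℓ₀ : Fact ℓ₀.Prime] {r : ℕ} (hr : RatRankLE 𝔤 r)
    (hpl : ∀ T : Set (HeightOneSpectrum (𝓞 K)), T.Finite →
      ∃ v, v ∉ T ∧ v ∉ S ∧ IndepRoots r (Set.range (P v)))
    (Δ₀ : Subgroup Gal(AlgebraicClosure K/K)) (hΔ₀ : Δ₀.FiniteIndex)
    (hconn : ConnectedOn Δ₀ (ρ ℓ₀)) (hA : TypeA 𝔤)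
    (ℓ : ℕ) [hℓ : Fact ℓ.Prime] (hR : RankTheorem (ρ ℓ) 𝔤 r) : TateMotivated (ρ ℓ) 𝔤 ↔
      ∀ Y : End ℚ_[ℓ] (∀ i, Fin (n i) → ℚ_[ℓ]),
        (∀ γ ∈ Δ₀, sumRep (ρ ℓ) γ * Y = Y * sumRep (ρ ℓ) γ) →
        (∀ Z : End ℚ_[ℓ] (∀ i, Fin (n i) → ℚ_[ℓ]),
          (∀ γ ∈ Δ₀, sumRep (ρ ℓ) γ * Z = Z * sumRep (ρ ℓ) γ) → Y * Z = Z * Y) →
        ∀ X ∈ scal ℓ 𝔤, X * Y = Y * X := by
  have hcomp : CompactSpace Gal(AlgebraicClosure K/K) := Pool.Agent.Helper49P.compactGal K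
  refine ⟨fun hT Y hY _ => hR.tate.1 hT Y ⟨Δ₀, hΔ₀, hY⟩, fun hcen => ?_⟩
  obtain ⟨𝔥, hk, hred⟩ := hR.rank
  obtain ⟨v, hvT, hvS, hv⟩ := hpl {v | Above v ℓ} (finite_aboveK hℓ.out)
  have hfull := full_main' (ρ ℓ) w S P (h.good ℓ) (𝔤 := 𝔤) (h.motivic ℓ)
    (rank_scalars ℓ hr) hR.semisimple hk hred.bracket hred.nondeg hred.le (fun X hX hXc Y hY => by
      refine (hcen X (fun γ hγ => ?_) (fun Z hZ => ?_) Y hY).symm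
      · exact endos_fixed' Δ₀ hΔ₀ (ρ ℓ) (h.continuous ℓ) (ρ ℓ₀) (h.continuous ℓ₀) S h.finite P
          (h.good ℓ) (h.good ℓ₀) hconn
          (comm_tateEnd (ρ ℓ) (h.continuous ℓ) hR.semisimple hk hXc) γ hγ
      · exact Pool.Agent.R913.Adj.tate_comm (sumRep (ρ ℓ)) ((hk X).1 hX) hΔ₀
          fun γ hγ => (hZ γ hγ).symm) hvS hvT hv hA
  intro m φ
  exact ⟨fun hφ X hX => (hk X).1 (hfull.symm.le hX) m φ hφ, IsMotivic.tate (h.motivic ℓ) m φ⟩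

end main

end Pool.Agent.Helper49K
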